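import Mathlib

set_option autoImplicit false

open Finset

namespace Pool.Agent.Lib.MP_2293c7_nt

/-- term of the one-parameter family -/
def tm (x : ℚ) (k : ℕ) : ℚ :=
  ∏ j ∈ range k, ((3 * j + 1 - x) * (3 * j + 1 - 2 * x) / ((j + 1 - x) * (j + 1)))

def TT (K : ℕ) (x : ℚ) : ℚ := ∑ k ∈ range K, tm x k

def sm (x : ℚ) (k : ℕ) : ℚ :=
  ∏ j ∈ range k, ((3 * j - 2 - x) * (3 * j - 5 - 2 * x) / ((j + 1 - x) * (j + 1)))

lemma tm_shift (x : ℚ) (hx : 0 < x) (k : ℕ) (h : ∀ j : ℕ, j < k → (j : ℚ) + 1 - x ≠ 0)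
    (h' : ∀ j : ℕ, j < k → (j : ℚ) - 2 - x ≠ 0) :
    tm (x + 3) k * (-(x * (x + 1) * (x + 2))) = sm x k * ((k - x) * (k - 1 - x) * (k - 2 - x)) := by
  induction k with
  | zero => simp [tm, sm]; ring
  | succ k ih =>
    have ih' := ih (fun j hj => h j (by omega)) (fun j hj => h' j (by omega))
    have h1 := h k (by omega)
    have h2 := h' k (by omega)
    have h3 : (k : ℚ) + 1 ≠ 0 := by positivity
    have h4 : (k : ℚ) + 1 - (x + 3) ≠ 0 := by
      intro hh; apply h2; linarith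
    unfold tm sm at *
    rw [prod_range_succ, prod_range_succ, mul_right_comm, ih']
    push_cast
    field_simp
    ring

lemma tm_self (x : ℚ) (k : ℕ) :
    tm x k * (-((x + 2) * (2 * x + 5) * (2 * x + 2))) =
      sm x k * ((3 * k - 2 - x) * (3 * k - 5 - 2 * x) * (3 * k - 2 - 2 * x)) := by
  induction k with
  | zero => simp [tm, sm]; ring
  | succ k ih =>
    unfold tm sm at *
    rw [prod_range_succ, prod_range_succ, mul_right_comm, ih]
    push_cast
    ring

lemma telescope (x : ℚ) (hx : 0 < x) (K : ℕ) (h : ∀ j : ℕ, j < K → (j : ℚ) + 1 - x ≠ 0)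
    (h' : ∀ j : ℕ, j < K → (j : ℚ) - 2 - x ≠ 0) :
    (TT (K + 1) (x + 3) + 2 * (2 * x + 1) / x * TT (K + 1) x) * (-(x * (x + 1) * (x + 2) * (2 * x + 5))) =
      sm x K * ((3 * K - 2 - x) * (3 * K - 5 - 2 * x) *
        ((7 * x + 4) * (K + 1) - (5 * x ^ 2 + 14 * x + 6))) := by
  induction K with
  | zero =>
    simp [TT, tm, sm]
    field_simp
    ring
  | succ K ih =>
    have ih' := ih (fun j hj => h j (by omega)) (fun j hj => h' j (by omega))
    have e1 := tm_shift x hx (K + 1) h h'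
    have e2 := tm_self x (K + 1)
    have h1 := h K (by omega)
    have h3 : (K : ℚ) + 1 ≠ 0 := by positivity
    have e3 : sm x K * ((3 * K - 2 - x) * (3 * K - 5 - 2 * x)) =
        sm x (K + 1) * ((K + 1 - x) * (K + 1)) := by
      unfold sm
      rw [prod_range_succ]
      field_simp
    have hT : ∀ y : ℚ, TT (K + 1 + 1) y = TT (K + 1) y + tm y (K + 1) := by
      intro y; unfold TT; rw [sum_range_succ]
    rw [hT, hT]
    have hx0 : x ≠ 0 := hx.ne'
    have e4 : 2 * (2 * x + 1) / x * x = 2 * (2 * x + 1) := by field_simp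
    push_cast at e1 e2 ⊢
    linear_combination ih' + (2 * x + 5) * e1 + (2 * x + 1) * e2 +
      ((7 * x + 4) * (K + 1) - (5 * x ^ 2 + 14 * x + 6)) * e3 -
      ((x + 1) * (x + 2) * (2 * x + 5) * tm x (K + 1)) * e4

lemma step (x : ℚ) (hx : 0 < x) (K : ℕ) (h : ∀ j : ℕ, j < K → (j : ℚ) + 1 - x ≠ 0)
    (h' : ∀ j : ℕ, j < K → (j : ℚ) - 2 - x ≠ 0)
    (hz : (3 * (K : ℚ) - 2 - x) * (3 * K - 5 - 2 * x) = 0) :
    TT (K + 1) (x + 3) = -(2 * (2 * x + 1) / x) * TT (K + 1) x := by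
  have := telescope x hx K h h'
  rw [hz, zero_mul, mul_zero] at this
  have h0 : -(x * (x + 1) * (x + 2) * (2 * x + 5)) ≠ 0 := by
    have : 0 < x * (x + 1) * (x + 2) * (2 * x + 5) := by positivity
    linarith
  have := (mul_eq_zero.mp this).resolve_right h0
  linarith

lemma tm_eq_zero (x : ℚ) (j k : ℕ) (hjk : j < k)
    (hz : (3 * (j : ℚ) + 1 - x) * (3 * j + 1 - 2 * x) = 0) : tm x k = 0 := by
  unfold tm
  apply prod_eq_zero (mem_range.mpr hjk)
  rw [hz, zero_div]

theorem closedX (n : ℕ) (hn : 1 ≤ n) :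
    TT (n + 1) (3 * n + 1) = ∏ j ∈ range n, (-6 * (2 * (j : ℚ) + 1) / (3 * j + 1)) := by
  induction n, hn using Nat.le_induction with
  | base => simp [TT, tm, sum_range_succ]; norm_num
  | succ n hn ih =>
    have hn' : (1 : ℚ) ≤ n := by exact_mod_cast hn
    have := step (3 * n + 1) (by positivity) (n + 1)
      (fun j hj => by
        have : (j : ℚ) ≤ n := by exact_mod_cast Nat.lt_succ_iff.mp hj
        linarith)
      (fun j hj => by
        have : (j : ℚ) ≤ n := by exact_mod_cast Nat.lt_succ_iff.mp hj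
        linarith)
      (by push_cast; ring)
    have e : (3 * ((n + 1 : ℕ) : ℚ) + 1) = 3 * n + 1 + 3 := by push_cast; ring
    rw [e, this, prod_range_succ, ← ih]
    have hT : TT (n + 1 + 1) (3 * n + 1) = TT (n + 1) (3 * n + 1) := by
      unfold TT; rw [sum_range_succ _ (n + 1), tm_eq_zero _ n (n + 1) (by omega) (by ring), add_zero]
    rw [hT]
    have : (3 * (n : ℚ) + 1) ≠ 0 := by positivity
    field_simp
    ring

lemma half_ne (a : ℤ) (x : ℚ) (hx : 2 * x = 2 * a + 1) : x ≠ 0 := by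
  rintro rfl
  have : (2 * a + 1 : ℤ) = 0 := by exact_mod_cast (by linarith : (2 * (a : ℚ) + 1) = 0)
  omega

theorem closedY (m : ℕ) :
    TT (2 * m + 1) (3 * m + 1 / 2) = ∏ j ∈ range m, (-8 * (3 * (j : ℚ) + 1) / (6 * j + 1)) := by
  induction m with
  | zero => simp [TT, tm]
  | succ m ih =>
    have := step (3 * m + 1 / 2) (by positivity) (2 * m + 2)
      (fun j _ => half_ne ((j : ℤ) - 3 * m) _ (by push_cast; ring))
      (fun j _ => half_ne ((j : ℤ) - 3 * m - 3) _ (by push_cast; ring))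
      (by push_cast; ring)
    have e : (3 * ((m + 1 : ℕ) : ℚ) + 1 / 2) = 3 * m + 1 / 2 + 3 := by push_cast; ring
    have e' : 2 * (m + 1) + 1 = 2 * m + 2 + 1 := by ring
    rw [e, e', this, prod_range_succ, ← ih]
    have hT : TT (2 * m + 2 + 1) (3 * m + 1 / 2) = TT (2 * m + 1) (3 * m + 1 / 2) := by
      unfold TT
      rw [sum_range_succ _ (2 * m + 2), sum_range_succ _ (2 * m + 1),
        tm_eq_zero _ (2 * m) (2 * m + 2) (by omega) (by push_cast; ring),
        tm_eq_zero _ (2 * m) (2 * m + 1) (by omega) (by push_cast; ring), add_zero, add_zero]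
    rw [hT]
    have : (6 * (m : ℚ) + 1) ≠ 0 := by positivity
    have : (3 * (m : ℚ) + 1 / 2) ≠ 0 := by positivity
    have : (3 * (m : ℚ) * 2 + 1) ≠ 0 := by positivity
    field_simp
    ring

end Pool.Agent.Lib.MP_2293c7_nt
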