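import Mathlib
import Pool.Agent.Lib.MP_2293c7_nt.Hyper

set_option autoImplicit false

open Finset

namespace Pool.Agent.Lib.MP_2293c7_nt

/-- rationals whose denominator is prime to p -/
def OO (p : ℕ) (hp : p.Prime) : Subring ℚ where
  carrier := {q | ¬ p ∣ q.den}
  mul_mem' := by
    intro a b ha hb h
    rcases (Nat.Prime.dvd_mul hp).mp (h.trans (Rat.mul_den_dvd a b)) with h | h
    · exact ha h
    · exact hb h
  one_mem' := by simpa using hp.ne_one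
  add_mem' := by
    intro a b ha hb h
    rcases (Nat.Prime.dvd_mul hp).mp (h.trans (Rat.add_den_dvd a b)) with h | h
    · exact ha h
    · exact hb h
  zero_mem' := by simpa using hp.ne_one
  neg_mem' := by intro a ha; simpa using ha

variable {p : ℕ} {hp : p.Prime}

lemma mem_OO {q : ℚ} : q ∈ OO p hp ↔ ¬ p ∣ q.den := Iff.rfl

lemma inv_int_mem (a : ℤ) (ha : ¬ (p : ℤ) ∣ a) : ((a : ℚ))⁻¹ ∈ OO p hp := by
  rw [mem_OO, Rat.inv_intCast_den]
  have h0 : a ≠ 0 := by rintro rfl; exact ha (dvd_zero _)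
  rw [if_neg h0]
  intro h
  exact ha (Int.natCast_dvd.mpr h)

lemma inv_mem_of (q : ℚ) (a : ℤ) (hq : q = a) (ha : ¬ (p : ℤ) ∣ a) : q⁻¹ ∈ OO p hp := by
  rw [hq]; exact inv_int_mem a ha

lemma not_dvd_of_lt (a : ℕ) (h0 : 0 < a) (h : a < p) : ¬ (p : ℤ) ∣ (a : ℤ) := by
  intro hh
  exact absurd (Nat.le_of_dvd h0 (Int.natCast_dvd_natCast.mp hh)) (by omega)

lemma num_dvd {q c : ℚ} (hc : c ∈ OO p hp) (h : q = (p : ℚ) ^ 2 * c) : (p : ℤ) ^ 2 ∣ q.num := by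
  have h1 : (q.num : ℚ) * c.den = (p : ℚ) ^ 2 * c.num * q.den := by
    have a1 : (q.num : ℚ) = q * q.den := (Rat.mul_den_eq_num q).symm
    have a2 : (c.num : ℚ) = c * c.den := (Rat.mul_den_eq_num c).symm
    rw [a1, a2]
    nth_rewrite 1 [h]
    ring
  have h2 : q.num * c.den = (p : ℤ) ^ 2 * (c.num * q.den) := by
    rw [← mul_assoc]; exact_mod_cast h1
  have h3 : IsCoprime ((p : ℤ) ^ 2) (c.den : ℤ) := by
    apply IsCoprime.pow_left
    rw [Nat.isCoprime_iff_coprime]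
    exact (Nat.Prime.coprime_iff_not_dvd hp).mpr hc
  exact h3.dvd_of_dvd_mul_right ⟨_, h2⟩

/-- triples of values at 0, p/2, p of a function that is affine modulo p squared -/
def Aff (p : ℕ) (hp : p.Prime) (f0 f1 f2 : ℚ) : Prop :=
  f0 ∈ OO p hp ∧ ∃ a ∈ OO p hp, ∃ c ∈ OO p hp, f1 = f0 + p * a ∧ f2 = f0 + 2 * p * a + p ^ 2 * c

lemma Aff.add {f0 f1 f2 g0 g1 g2 : ℚ} (hf : Aff p hp f0 f1 f2) (hg : Aff p hp g0 g1 g2) :
    Aff p hp (f0 + g0) (f1 + g1) (f2 + g2) := by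
  obtain ⟨h0, a, ha, c, hc, rfl, rfl⟩ := hf
  obtain ⟨h0', a', ha', c', hc', rfl, rfl⟩ := hg
  exact ⟨add_mem h0 h0', a + a', add_mem ha ha', c + c', add_mem hc hc', by ring, by ring⟩

lemma Aff.mul {f0 f1 f2 g0 g1 g2 : ℚ} (hf : Aff p hp f0 f1 f2) (hg : Aff p hp g0 g1 g2) :
    Aff p hp (f0 * g0) (f1 * g1) (f2 * g2) := by
  obtain ⟨h0, a, ha, c, hc, rfl, rfl⟩ := hf
  obtain ⟨h0', a', ha', c', hc', rfl, rfl⟩ := hg
  have hP : (p : ℚ) ∈ OO p hp := natCast_mem _ p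
  have h2 : (2 : ℚ) ∈ OO p hp := by exact_mod_cast natCast_mem (OO p hp) 2
  refine ⟨mul_mem h0 h0', f0 * a' + a * g0 + p * a * a', ?_,
    2 * a * a' + f0 * c' + c * g0 + 2 * p * a * c' + 2 * p * a' * c + p * p * c * c', ?_,
    by ring, by ring⟩
  · exact add_mem (add_mem (mul_mem h0 ha') (mul_mem ha h0')) (mul_mem (mul_mem hP ha) ha')
  · refine add_mem (add_mem (add_mem (add_mem (add_mem ?_ ?_) ?_) ?_) ?_) ?_
    · exact mul_mem (mul_mem h2 ha) ha'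
    · exact mul_mem h0 hc'
    · exact mul_mem hc h0'
    · exact mul_mem (mul_mem (mul_mem h2 hP) ha) hc'
    · exact mul_mem (mul_mem (mul_mem h2 hP) ha') hc
    · exact mul_mem (mul_mem (mul_mem hP hP) hc) hc'

lemma Aff.const {f : ℚ} (hf : f ∈ OO p hp) : Aff p hp f f f :=
  ⟨hf, 0, zero_mem _, 0, zero_mem _, by ring, by ring⟩

lemma Aff.lin {u w : ℚ} (hu : u ∈ OO p hp) (hw : w ∈ OO p hp) :
    Aff p hp u (u + p * w) (u + 2 * p * w) :=
  ⟨hu, w, hw, 0, zero_mem _, by ring, by ring⟩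

lemma Aff.inv {f0 f1 f2 : ℚ} (hf : Aff p hp f0 f1 f2) (n0 : f0 ≠ 0) (n1 : f1 ≠ 0) (n2 : f2 ≠ 0)
    (i0 : f0⁻¹ ∈ OO p hp) (i1 : f1⁻¹ ∈ OO p hp) (i2 : f2⁻¹ ∈ OO p hp) :
    Aff p hp f0⁻¹ f1⁻¹ f2⁻¹ := by
  obtain ⟨h0, a, ha, c, hc, e1, e2⟩ := hf
  have hP : (p : ℚ) ∈ OO p hp := natCast_mem _ p
  have h2 : (2 : ℚ) ∈ OO p hp := by exact_mod_cast natCast_mem (OO p hp) 2
  refine ⟨i0, -(a * f0⁻¹ * f1⁻¹), ?_,
    (2 * a * a + p * a * c - f0 * c) * f0⁻¹ * f1⁻¹ * f2⁻¹, ?_, ?_, ?_⟩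
  · exact neg_mem (mul_mem (mul_mem ha i0) i1)
  · refine mul_mem (mul_mem (mul_mem (sub_mem (add_mem ?_ ?_) ?_) i0) i1) i2
    · exact mul_mem (mul_mem h2 ha) ha
    · exact mul_mem (mul_mem hP ha) hc
    · exact mul_mem h0 hc
  · field_simp
    rw [e1]; ring
  · field_simp
    rw [e1, e2]; ring

lemma Aff.prod {ι : Type} (s : Finset ι) (f0 f1 f2 : ι → ℚ)
    (h : ∀ i ∈ s, Aff p hp (f0 i) (f1 i) (f2 i)) :
    Aff p hp (∏ i ∈ s, f0 i) (∏ i ∈ s, f1 i) (∏ i ∈ s, f2 i) := by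
  classical
  induction s using Finset.induction_on with
  | empty => simpa using Aff.const (one_mem _)
  | insert i s hi ih =>
    rw [prod_insert hi, prod_insert hi, prod_insert hi]
    exact (h i (mem_insert_self _ _)).mul (ih fun j hj => h j (mem_insert_of_mem hj))

lemma Aff.sum {ι : Type} (s : Finset ι) (f0 f1 f2 : ι → ℚ)
    (h : ∀ i ∈ s, Aff p hp (f0 i) (f1 i) (f2 i)) :
    Aff p hp (∑ i ∈ s, f0 i) (∑ i ∈ s, f1 i) (∑ i ∈ s, f2 i) := by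
  classical
  induction s using Finset.induction_on with
  | empty => simpa using Aff.const (zero_mem _)
  | insert i s hi ih =>
    rw [sum_insert hi, sum_insert hi, sum_insert hi]
    exact (h i (mem_insert_self _ _)).add (ih fun j hj => h j (mem_insert_of_mem hj))

lemma Aff.unique {f0 g0 f1 f2 : ℚ} (hf : Aff p hp f0 f1 f2) (hg : Aff p hp g0 f1 f2) :
    ∃ c ∈ OO p hp, f0 - g0 = p ^ 2 * c := by
  obtain ⟨h0, a, ha, c, hc, e1, e2⟩ := hf
  obtain ⟨h0', a', ha', c', hc', e1', e2'⟩ := hg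
  exact ⟨c - c', sub_mem hc hc', by linear_combination 2 * e1' - 2 * e1 + e2 - e2'⟩

lemma ne_zero_of_not_dvd (q : ℚ) (a : ℤ) (hq : q = a) (ha : ¬ (p : ℤ) ∣ a) : q ≠ 0 := by
  rw [hq]; intro h
  have : a = 0 := by exact_mod_cast h
  exact ha (this ▸ dvd_zero _)

lemma not_dvd_add (a b : ℤ) (ha : ¬ (p : ℤ) ∣ a) : ¬ (p : ℤ) ∣ a + p * b := by
  intro h
  exact ha ((dvd_add_left (dvd_mul_right _ _)).mp h)

lemma not_dvd_mul (hp : p.Prime) (a b : ℤ) (ha : ¬ (p : ℤ) ∣ a) (hb : ¬ (p : ℤ) ∣ b) :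
    ¬ (p : ℤ) ∣ a * b := by
  intro h
  rcases (Nat.prime_iff_prime_int.mp hp).dvd_or_dvd h with h | h
  · exact ha h
  · exact hb h

/-- inverse of a linear factor `u + x w` at `x = 0, p, 2p`, with `u` prime to `p` -/
lemma Aff.inv_lin (u w : ℤ) (hu : ¬ (p : ℤ) ∣ u) :
    Aff p hp ((u : ℚ))⁻¹ ((u : ℚ) + p * w)⁻¹ ((u : ℚ) + 2 * p * w)⁻¹ := by
  have h1 := not_dvd_add u w hu
  have h2 := not_dvd_add u (2 * w) hu
  refine (Aff.lin (intCast_mem _ u) (intCast_mem _ w)).inv ?_ ?_ ?_ ?_ ?_ ?_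
  · exact ne_zero_of_not_dvd _ u rfl hu
  · exact ne_zero_of_not_dvd _ _ (by push_cast; ring) h1
  · exact ne_zero_of_not_dvd _ _ (by push_cast; ring) h2
  · exact inv_int_mem u hu
  · exact inv_mem_of _ _ (by push_cast; ring) h1
  · exact inv_mem_of _ _ (by push_cast; ring) h2

lemma Aff.congr {f0 f1 f2 g0 g1 g2 : ℚ} (hf : Aff p hp f0 f1 f2) (e0 : g0 = f0) (e1 : g1 = f1)
    (e2 : g2 = f2) : Aff p hp g0 g1 g2 := by
  rw [e0, e1, e2]; exact hf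

lemma aff_TT (h2 : 2 < p) (K : ℕ) (hK : K ≤ p) :
    Aff p hp (TT K 0) (TT K (p / 2)) (TT K p) := by
  unfold TT tm
  refine Aff.sum _ _ _ _ fun k hk => Aff.prod _ _ _ _ fun j hj => ?_
  have hk' := mem_range.mp hk
  have hj' := mem_range.mp hj
  have d1 : ¬ (p : ℤ) ∣ ((j + 1 : ℕ) : ℤ) := not_dvd_of_lt _ (by omega) (by omega)
  have d2 : ¬ (p : ℤ) ∣ ((2 : ℕ) : ℤ) := not_dvd_of_lt _ (by omega) (by omega)
  have d3 := not_dvd_mul hp _ _ d2 d1
  have A1 : Aff p hp _ _ _ := Aff.lin (p := p) (hp := hp) (intCast_mem _ (6 * (j : ℤ) + 2))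
    (intCast_mem _ (-1))
  have A2 : Aff p hp _ _ _ := Aff.lin (p := p) (hp := hp) (intCast_mem _ (3 * (j : ℤ) + 1))
    (intCast_mem _ (-1))
  have A3 : Aff p hp _ _ _ := Aff.inv_lin (p := p) (hp := hp) _ (-1) d3
  have A4 : Aff p hp _ _ _ := Aff.const (p := p) (hp := hp) (inv_int_mem _ d1)
  refine (((A1.mul A2).mul A3).mul A4).congr ?_ ?_ ?_
  · push_cast
    rw [div_eq_mul_inv, mul_inv, mul_inv, sub_zero]
    ring
  · push_cast
    have e : 2 * ((j : ℚ) + 1) + p * -1 = 2 * ((j : ℚ) + 1 - p / 2) := by ring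
    rw [e, div_eq_mul_inv, mul_inv, mul_inv]
    generalize ((j : ℚ) + 1 - p / 2)⁻¹ = w
    ring
  · push_cast
    have e : 2 * ((j : ℚ) + 1) + 2 * p * -1 = 2 * ((j : ℚ) + 1 - p) := by ring
    rw [e, div_eq_mul_inv, mul_inv, mul_inv]
    generalize ((j : ℚ) + 1 - p)⁻¹ = w
    ring

lemma centralBinom_eq (n : ℕ) :
    (n.centralBinom : ℚ) = ∏ j ∈ range n, (2 * (2 * (j : ℚ) + 1) / (j + 1)) := by
  induction n with
  | zero => simp
  | succ n ih =>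
    rw [prod_range_succ, ← ih]
    have h := Nat.succ_mul_centralBinom_succ n
    have h' : ((n : ℚ) + 1) * (n + 1).centralBinom = 2 * (2 * n + 1) * n.centralBinom := by
      exact_mod_cast h
    have : (n : ℚ) + 1 ≠ 0 := by positivity
    field_simp
    linear_combination h'

lemma centralBinom_eq' (m : ℕ) :
    (m.centralBinom : ℚ) = ∏ j ∈ range m, (((m : ℚ) + j + 1) / (j + 1)) := by
  have h := Nat.ascFactorial_eq_factorial_mul_choose m m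
  rw [Nat.ascFactorial_eq_prod_range, ← two_mul, ← Nat.centralBinom_eq_two_mul_choose,
    ← Finset.prod_range_add_one_eq_factorial] at h
  have h' : ∏ j ∈ range m, ((m : ℚ) + j + 1) = (∏ j ∈ range m, ((j : ℚ) + 1)) * m.centralBinom := by
    have := congrArg (Nat.cast : ℕ → ℚ) h
    push_cast at this
    rw [← this]
    exact prod_congr rfl fun j _ => by ring
  have h0 : ∏ j ∈ range m, ((j : ℚ) + 1) ≠ 0 := prod_ne_zero_iff.mpr fun j _ => by positivity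
  rw [prod_div_distrib, h']
  field_simp

lemma reflect (m : ℕ) (f g : ℕ → ℚ) (h : ∀ i j : ℕ, i + j + 1 = m → f i = g j) :
    ∏ j ∈ range m, f j = ∏ j ∈ range m, g j := by
  rw [← prod_range_reflect f m]
  refine prod_congr rfl fun j hj => h _ _ ?_
  have := mem_range.mp hj
  omega

lemma X_eq (m : ℕ) (P : ℚ) (hP : P = 6 * m + 1) :
    ∏ j ∈ range (2 * m), (-6 * (2 * (j : ℚ) + 1) / (3 * j + 1)) =
      (2 * m).centralBinom * ∏ i ∈ range m,
        ((3 * ((i : ℚ) + 1)) * (3 * (i + 1) - P)⁻¹ * ((3 * ((m : ℚ) + i + 1)) * (3 * (m + i + 1) - P)⁻¹)) := by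
  have e1 : ∏ j ∈ range (2 * m), (-6 * (2 * (j : ℚ) + 1) / (3 * j + 1)) =
      (2 * m).centralBinom * ((∏ j ∈ range (2 * m), (3 * ((j : ℚ) + 1))) *
        ∏ j ∈ range (2 * m), (-(3 * (j : ℚ) + 1))⁻¹) := by
    rw [centralBinom_eq, ← prod_mul_distrib, ← prod_mul_distrib]
    refine prod_congr rfl fun j _ => ?_
    have : (j : ℚ) + 1 ≠ 0 := by positivity
    have : 3 * (j : ℚ) + 1 ≠ 0 := by positivity
    field_simp
    ring
  have e2 : ∏ j ∈ range (2 * m), (-(3 * (j : ℚ) + 1))⁻¹ =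
      ∏ j ∈ range (2 * m), (3 * ((j : ℚ) + 1) - P)⁻¹ := by
    refine reflect _ _ _ fun i j hij => ?_
    have : (i : ℚ) + j + 1 = 2 * m := by exact_mod_cast hij
    congr 1
    linarith
  rw [e1, e2, ← prod_mul_distrib, two_mul m, prod_range_add, ← prod_mul_distrib]
  push_cast
  rfl

lemma Y_eq (m : ℕ) (P : ℚ) (hP : P = 6 * m + 1) :
    ∏ j ∈ range m, (-8 * (3 * (j : ℚ) + 1) / (6 * j + 1)) =
      (2 * m).centralBinom * ∏ i ∈ range m,
        ((6 * ((i : ℚ) + 1)) * (6 * (i + 1) - P)⁻¹ *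
          ((2 * (3 * ((m : ℚ) + i + 1) - P)) * (3 * (2 * (m + i + 1) - P))⁻¹)) := by
  have a1 : ∏ j ∈ range m, (-(6 * (j : ℚ) + 1))⁻¹ = ∏ i ∈ range m, (6 * ((i : ℚ) + 1) - P)⁻¹ := by
    refine reflect _ _ _ fun i j hij => ?_
    have : (i : ℚ) + j + 1 = m := by exact_mod_cast hij
    congr 1
    linarith
  have a2 : ∏ j ∈ range m, (-(3 * (j : ℚ) + 1)) = ∏ i ∈ range m, (3 * ((m : ℚ) + i + 1) - P) := by
    refine reflect _ _ _ fun i j hij => ?_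
    have : (i : ℚ) + j + 1 = m := by exact_mod_cast hij
    linarith
  have a4 : ∏ j ∈ range m, (-(2 * ((m : ℚ) + j) + 1))⁻¹ =
      ∏ i ∈ range m, (2 * ((m : ℚ) + i + 1) - P)⁻¹ := by
    refine reflect _ _ _ fun i j hij => ?_
    have : (i : ℚ) + j + 1 = m := by exact_mod_cast hij
    congr 1
    linarith
  have b : ((2 * m).centralBinom : ℚ) =
      ∏ j ∈ range m, (2 * (2 * ((m : ℚ) + j) + 1) / (j + 1)) := by
    rw [centralBinom_eq, two_mul m, prod_range_add, ← centralBinom_eq, centralBinom_eq',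
      ← prod_mul_distrib]
    refine prod_congr rfl fun j _ => ?_
    have : (j : ℚ) + 1 ≠ 0 := by positivity
    have : (m : ℚ) + j + 1 ≠ 0 := by positivity
    push_cast
    field_simp
  have c : ∏ i ∈ range m,
        ((6 * ((i : ℚ) + 1)) * (6 * (i + 1) - P)⁻¹ *
          ((2 * (3 * ((m : ℚ) + i + 1) - P)) * (3 * (2 * (m + i + 1) - P))⁻¹)) =
      (∏ i ∈ range m, (4 * ((i : ℚ) + 1))) * (∏ i ∈ range m, (6 * ((i : ℚ) + 1) - P)⁻¹) *
        (∏ i ∈ range m, (3 * ((m : ℚ) + i + 1) - P)) *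
        ∏ i ∈ range m, (2 * ((m : ℚ) + i + 1) - P)⁻¹ := by
    rw [← prod_mul_distrib, ← prod_mul_distrib, ← prod_mul_distrib]
    refine prod_congr rfl fun j _ => ?_
    rw [mul_inv]
    generalize (6 * ((j : ℚ) + 1) - P)⁻¹ = w
    generalize (2 * ((m : ℚ) + j + 1) - P)⁻¹ = w'
    ring
  rw [c, ← a1, ← a2, ← a4, b, ← prod_mul_distrib, ← prod_mul_distrib, ← prod_mul_distrib,
    ← prod_mul_distrib]
  refine prod_congr rfl fun j _ => ?_
  have : (j : ℚ) + 1 ≠ 0 := by positivity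
  have : 6 * (j : ℚ) + 1 ≠ 0 := by positivity
  have : 2 * ((m : ℚ) + j) + 1 ≠ 0 := by positivity
  field_simp
  ring

lemma aff_B (m : ℕ) (hm : p = 6 * m + 1) :
    Aff p hp ((2 * m).centralBinom : ℚ) (TT (2 * m + 1) (p / 2)) (TT (2 * m + 1) p) := by
  have hP : (p : ℚ) = 6 * m + 1 := by exact_mod_cast hm
  have hm0 : 1 ≤ m := by
    rcases Nat.eq_zero_or_pos m with h | h
    · exfalso; rw [h] at hm; exact hp.ne_one (by simpa using hm)
    · exact h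
  have eX0 := closedX (2 * m) (by omega)
  have e0 : (3 * ((2 * m : ℕ) : ℚ) + 1) = p := by rw [hP]; push_cast; ring
  rw [e0] at eX0
  have eX := eX0.trans (X_eq m p hP)
  have eY0 := closedY m
  have e0' : (3 * (m : ℚ) + 1 / 2) = p / 2 := by rw [hP]; ring
  rw [e0'] at eY0
  have eY := eY0.trans (Y_eq m p hP)
  rw [eX, eY]
  have key : Aff p hp (∏ _i ∈ range m, (1 : ℚ)) _ _ := Aff.prod (p := p) (hp := hp) (range m)
    (fun _ => (1 : ℚ))
    (fun i => (6 * ((i : ℚ) + 1)) * (6 * ((i : ℚ) + 1) - p)⁻¹ *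
          ((2 * (3 * ((m : ℚ) + i + 1) - p)) * (3 * (2 * ((m : ℚ) + i + 1) - p))⁻¹))
    (fun i => (3 * ((i : ℚ) + 1)) * (3 * ((i : ℚ) + 1) - p)⁻¹ *
      ((3 * ((m : ℚ) + i + 1)) * (3 * ((m : ℚ) + i + 1) - p)⁻¹)) ?_
  · refine ((Aff.const (natCast_mem _ ((2 * m).centralBinom))).mul key).congr ?_ rfl rfl
    simp
  intro i hi
  have hi' := mem_range.mp hi
  have d1 : ¬ (p : ℤ) ∣ ((i + 1 : ℕ) : ℤ) := not_dvd_of_lt _ (by omega) (by omega)
  have d2 : ¬ (p : ℤ) ∣ ((m + i + 1 : ℕ) : ℤ) := not_dvd_of_lt _ (by omega) (by omega)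
  have d3 : ¬ (p : ℤ) ∣ ((3 : ℕ) : ℤ) := not_dvd_of_lt _ (by omega) (by omega)
  have d6 : ¬ (p : ℤ) ∣ ((6 : ℕ) : ℤ) := not_dvd_of_lt _ (by omega) (by omega)
  have A1 : Aff p hp _ _ _ := Aff.inv_lin (p := p) (hp := hp) _ (-1) (not_dvd_mul hp _ _ d6 d1)
  have A2 : Aff p hp _ _ _ := Aff.const (p := p) (hp := hp) (intCast_mem _ (6 * ((i : ℤ) + 1)))
  have e1 := not_dvd_add _ (-3) (not_dvd_mul hp _ _ d6 d2)
  have e2 := not_dvd_add _ (-1) (not_dvd_mul hp _ _ d3 d2)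
  have n1 := ne_zero_of_not_dvd (p := p) (6 * ((m : ℚ) + i + 1) - 3 * p) _ (by push_cast; ring) e1
  have n2 := ne_zero_of_not_dvd (p := p) (3 * ((m : ℚ) + i + 1) - p) _ (by push_cast; ring) e2
  have i1 : (6 * ((m : ℚ) + i + 1) - 3 * p)⁻¹ ∈ OO p hp := inv_mem_of _ _ (by push_cast; ring) e1
  have i2 : (3 * ((m : ℚ) + i + 1) - p)⁻¹ ∈ OO p hp := inv_mem_of _ _ (by push_cast; ring) e2
  have A3 : Aff p hp 1 ((2 * (3 * ((m : ℚ) + i + 1) - p)) * (3 * (2 * ((m : ℚ) + i + 1) - p))⁻¹)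
      ((3 * ((m : ℚ) + i + 1)) * (3 * ((m : ℚ) + i + 1) - p)⁻¹) := by
    have e : (3 * (2 * ((m : ℚ) + i + 1) - p)) = 6 * ((m : ℚ) + i + 1) - 3 * p := by ring
    refine ⟨one_mem _, _, i1, -((6 * ((m : ℚ) + i + 1) - 3 * p)⁻¹ * (3 * ((m : ℚ) + i + 1) - p)⁻¹),
      neg_mem (mul_mem i1 i2), ?_, ?_⟩
    · rw [e]
      have := mul_inv_cancel₀ n1
      linear_combination this
    · have t1 := mul_inv_cancel₀ n1
      have t2 := mul_inv_cancel₀ n2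
      generalize (6 * ((m : ℚ) + i + 1) - 3 * p)⁻¹ = w at *
      generalize (3 * ((m : ℚ) + i + 1) - p)⁻¹ = w' at *
      linear_combination (1 + 2 * (p : ℚ) * w) * t2 - (p : ℚ) * w' * t1
  have hi0 : (i : ℚ) + 1 ≠ 0 := by positivity
  refine ((A2.mul A1).mul A3).congr ?_ ?_ ?_
  · push_cast
    field_simp
  · push_cast
    ring
  · push_cast
    have e : 6 * ((i : ℚ) + 1) + 2 * p * -1 = 2 * (3 * ((i : ℚ) + 1) - p) := by ring
    rw [e, mul_inv]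
    generalize (3 * ((i : ℚ) + 1) - p)⁻¹ = w
    ring

lemma tail_mem (n : ℕ) (hn : p = 3 * n + 1) (k : ℕ) (hk : n < k) (hk' : k < p) :
    ∃ c ∈ OO p hp, tm 0 k = (p : ℚ) ^ 2 * c := by
  classical
  have hP : (p : ℚ) = 3 * n + 1 := by exact_mod_cast hn
  have hmem : ∀ j ∈ range k, (((j : ℚ) + 1)⁻¹) ∈ OO p hp := fun j hj => by
    have := mem_range.mp hj
    exact inv_mem_of _ ((j + 1 : ℕ) : ℤ) (by push_cast; ring) (not_dvd_of_lt _ (by omega) (by omega))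
  unfold tm
  rw [← mul_prod_erase _ _ (mem_range.mpr hk)]
  refine ⟨((n : ℚ) + 1)⁻¹ * ((n : ℚ) + 1)⁻¹ * ∏ j ∈ (range k).erase n,
    ((3 * j + 1 - 0) * (3 * j + 1 - 2 * 0) / (((j : ℚ) + 1 - 0) * (j + 1))), ?_, ?_⟩
  · refine mul_mem (mul_mem (hmem n (mem_range.mpr hk)) (hmem n (mem_range.mpr hk))) ?_
    refine prod_mem fun j hj => ?_
    have h1 := hmem j (mem_of_mem_erase hj)
    have h2 : (3 * (j : ℚ) + 1) ∈ OO p hp := by
      exact_mod_cast natCast_mem (OO p hp) (3 * j + 1)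
    have := mul_mem (mul_mem h2 h2) (mul_mem h1 h1)
    convert this using 1
    rw [div_eq_mul_inv, mul_inv, sub_zero, sub_zero, mul_zero, sub_zero]
  · rw [hP, div_eq_mul_inv, mul_inv, sub_zero, sub_zero, mul_zero, sub_zero]
    ring

theorem sum_congr_centralBinom (m : ℕ) (hm : p = 6 * m + 1) :
    ∃ c ∈ OO p hp, TT p 0 - ((2 * m).centralBinom : ℚ) = (p : ℚ) ^ 2 * c := by
  have h2 : 2 < p := by
    have := hp.two_le
    omega
  obtain ⟨c, hc, e⟩ := (aff_TT (hp := hp) h2 (2 * m + 1) (by omega)).unique (aff_B m hm)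
  have htail : ∃ c ∈ OO p hp, ∑ k ∈ Ico (2 * m + 1) p, tm 0 k = (p : ℚ) ^ 2 * c := by
    refine Finset.sum_induction _ (fun q => ∃ c ∈ OO p hp, q = (p : ℚ) ^ 2 * c) ?_ ?_ ?_
    · rintro a b ⟨c, hc, rfl⟩ ⟨c', hc', rfl⟩
      exact ⟨c + c', add_mem hc hc', by ring⟩
    · exact ⟨0, zero_mem _, by ring⟩
    · intro k hk
      have := mem_Ico.mp hk
      exact tail_mem (2 * m) (by omega) k (by omega) this.2
  obtain ⟨c', hc', e'⟩ := htail
  refine ⟨c + c', add_mem hc hc', ?_⟩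
  have : TT p 0 = TT (2 * m + 1) 0 + ∑ k ∈ Ico (2 * m + 1) p, tm 0 k := by
    unfold TT
    rw [sum_range_add_sum_Ico _ (by omega)]
  rw [this]
  linear_combination e + e'

end Pool.Agent.Lib.MP_2293c7_nt
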