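import Mathlib

set_option autoImplicit false

open Finset

namespace Pool.Agent.Lib.MP_2293c7_nt

section teich

variable (p : ℕ) [hp : Fact p.Prime]

lemma hom_unique (f : ℤ_[p] →+* ZMod p) (x : ℤ_[p]) : f x = PadicInt.toZMod x := by
  have h := PadicInt.sub_zmodRepr_mem x
  rw [PadicInt.maximalIdeal_eq_span_p, Ideal.mem_span_singleton] at h
  obtain ⟨y, hy⟩ := h
  have hx : x = x.zmodRepr + p * y := by linear_combination hy
  rw [hx]
  simp

/-- the Teichmueller character -/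
noncomputable def om : MulChar (ZMod p) ℤ_[p] where
  toFun x := WittVector.equiv p (WittVector.teichmuller p x)
  map_one' := by simp
  map_mul' := by simp
  map_nonunit' := by
    intro a ha
    have : a = 0 := by simpa using ha
    rw [this, WittVector.teichmuller_zero, map_zero]

lemma toZMod_om (x : ZMod p) : PadicInt.toZMod (om p x) = x := by
  rw [← hom_unique p (WittVector.constantCoeff.comp (WittVector.equiv p).symm.toRingHom)]
  change WittVector.constantCoeff ((WittVector.equiv p).symm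
    (WittVector.equiv p (WittVector.teichmuller p x))) = x
  rw [RingEquiv.symm_apply_apply]
  rfl

lemma om_pow_card : om p ^ (p - 1) = 1 := by
  have := MulChar.pow_card_eq_one (om p)
  rwa [ZMod.card_units p] at this

lemma om_pow_ne_one (e : ℕ) (he : ¬ (p - 1) ∣ e) : om p ^ e ≠ 1 := by
  intro h
  apply he
  obtain ⟨g, hg⟩ := IsCyclic.exists_generator (α := (ZMod p)ˣ)
  have h1 : (om p ^ e) g = 1 := by rw [h, MulChar.one_apply_coe]
  rw [MulChar.pow_apply_coe] at h1
  have h2 := congrArg PadicInt.toZMod h1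
  rw [map_pow, toZMod_om, map_one] at h2
  have h3 : g ^ e = 1 := by
    apply Units.ext
    simpa using h2
  have := orderOf_dvd_of_pow_eq_one h3
  rwa [orderOf_eq_card_of_forall_mem_zpowers hg, Nat.card_eq_fintype_card, ZMod.card_units p] at this

lemma sum_om_pow (e : ℕ) (he : e ≠ 0) :
    ∑ x : ZMod p, om p x ^ e = if (p - 1) ∣ e then ((p - 1 : ℕ) : ℤ_[p]) else 0 := by
  have : ∑ x : ZMod p, om p x ^ e = ∑ x : ZMod p, (om p ^ e) x :=
    sum_congr rfl fun x _ => (MulChar.pow_apply' _ he x).symm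
  rw [this]
  split_ifs with h
  · obtain ⟨c, rfl⟩ := h
    rw [pow_mul, om_pow_card, one_pow, MulChar.sum_one_eq_card_units, ZMod.card_units p]
  · exact MulChar.sum_eq_zero_of_ne_one (om_pow_ne_one p e h)

lemma sum_beta (a N : ℕ) (ha : a ≠ 0) :
    ∑ x : ZMod p, om p x ^ a * (1 - om p x) ^ N =
      ∑ j ∈ (range (N + 1)).filter (fun j => (p - 1) ∣ a + j),
        (-1) ^ j * (N.choose j : ℤ_[p]) * ((p - 1 : ℕ) : ℤ_[p]) := by
  have h1 : ∀ x : ZMod p, om p x ^ a * (1 - om p x) ^ N =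
      ∑ j ∈ range (N + 1), (-1) ^ j * (N.choose j : ℤ_[p]) * om p x ^ (a + j) := by
    intro x
    rw [sub_eq_neg_add, add_pow, mul_sum]
    refine sum_congr rfl fun j _ => ?_
    rw [neg_pow, one_pow, pow_add]
    ring
  simp_rw [h1]
  rw [sum_comm, sum_filter]
  refine sum_congr rfl fun j _ => ?_
  rw [← mul_sum, sum_om_pow p _ (by omega)]
  split_ifs <;> simp

lemma om_pow_add (x : ZMod p) (k : ℕ) (hk : k ≠ 0) : om p x ^ (k + (p - 1)) = om p x ^ k := by
  rw [← MulChar.pow_apply' _ (by omega), pow_add, om_pow_card, mul_one, MulChar.pow_apply' _ hk]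

lemma om_one_sub (x : ZMod p) : ∃ d : ℤ_[p], 1 - om p x = om p (1 - x) + p * d := by
  have : 1 - om p x - om p (1 - x) ∈ RingHom.ker (PadicInt.toZMod (p := p)) := by
    rw [RingHom.mem_ker, map_sub, map_sub, map_one, toZMod_om, toZMod_om, sub_self]
  rw [PadicInt.ker_toZMod, PadicInt.maximalIdeal_eq_span_p, Ideal.mem_span_singleton] at this
  obtain ⟨d, hd⟩ := this
  exact ⟨d, by linear_combination hd⟩

end teich

lemma add_pow_first {R : Type} [CommRing R] (a b : R) (k : ℕ) :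
    ∃ c : R, (a + b) ^ (k + 1) = a ^ (k + 1) + (k + 1) * a ^ k * b + c * b ^ 2 := by
  induction k with
  | zero => exact ⟨0, by simp⟩
  | succ k ih =>
    obtain ⟨c, hc⟩ := ih
    refine ⟨(k + 1) * a ^ k + c * (a + b), ?_⟩
    rw [pow_succ, hc]
    push_cast
    ring

lemma filter_two (n : ℕ) (hn : 0 < n) :
    (range (2 * n + 1)).filter (fun j => 3 * n ∣ 2 * n + j) = {n} := by
  ext j
  simp only [mem_filter, mem_range, mem_singleton]
  constructor
  · rintro ⟨h1, c, hc⟩
    rcases c with _ | _ | c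
    · omega
    · omega
    · exfalso; nlinarith [Nat.zero_le (n * c)]
  · rintro rfl
    exact ⟨by omega, 1, by ring⟩

lemma filter_five (n : ℕ) (hn : 0 < n) :
    (range (5 * n + 1)).filter (fun j => 3 * n ∣ 2 * n + j) = {n, 4 * n} := by
  ext j
  simp only [mem_filter, mem_range, mem_insert, mem_singleton]
  constructor
  · rintro ⟨h1, c, hc⟩
    rcases c with _ | _ | _ | c
    · omega
    · omega
    · omega
    · exfalso; nlinarith [Nat.zero_le (n * c)]
  · rintro (rfl | rfl)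
    · exact ⟨by omega, 1, by ring⟩
    · exact ⟨by omega, 2, by ring⟩

section jac

variable (p : ℕ) [hp : Fact p.Prime]

lemma jacobi_congr (m : ℕ) (hm : p = 6 * m + 1) :
    ∃ c : ℤ_[p], jacobiSum (om p ^ (4 * m)) (om p ^ (4 * m)) =
      (6 * m) * ((1 - 4 * m) * ((2 * m).centralBinom : ℤ_[p]) +
        8 * m * ((10 * m).choose (2 * m) : ℤ_[p])) + (p : ℤ_[p]) ^ 2 * c := by
  have hm0 : 0 < m := by
    rcases Nat.eq_zero_or_pos m with h | h
    · exfalso; rw [h] at hm; exact hp.out.ne_one (by simpa using hm)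
    · exact h
  have hp1 : p - 1 = 3 * (2 * m) := by omega
  have hP : (p : ℤ_[p]) = 6 * m + 1 := by exact_mod_cast congrArg (Nat.cast : ℕ → ℤ_[p]) hm
  have hx : ∀ x : ZMod p, ∃ c : ℤ_[p], (om p ^ (4 * m)) x * (om p ^ (4 * m)) (1 - x) =
      (1 - 4 * m) * (om p x ^ (4 * m) * (1 - om p x) ^ (4 * m)) +
        4 * m * (om p x ^ (4 * m) * (1 - om p x) ^ (10 * m)) + (p : ℤ_[p]) ^ 2 * c := by
    intro x
    obtain ⟨d, hd⟩ := om_one_sub p x
    rw [MulChar.pow_apply' _ (by omega), MulChar.pow_apply' _ (by omega), hd]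
    obtain ⟨k, hk⟩ : ∃ k, 4 * m = k + 1 := ⟨4 * m - 1, by omega⟩
    have hk' : 10 * m = (k + (p - 1)) + 1 := by omega
    obtain ⟨c1, h1⟩ := add_pow_first (om p (1 - x)) (p * d) k
    obtain ⟨c2, h2⟩ := add_pow_first (om p (1 - x)) (p * d) (k + (p - 1))
    have e1 := om_pow_add p (1 - x) k (by omega)
    have e2 : om p (1 - x) ^ (k + (p - 1) + 1) = om p (1 - x) ^ (k + 1) := by
      rw [pow_succ, e1, pow_succ]
    have hkc : ((k : ℤ_[p]) + 1) = 4 * m := by exact_mod_cast congrArg (Nat.cast : ℕ → ℤ_[p]) hk.symm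
    have hkc' : (((k + (p - 1) : ℕ) : ℤ_[p]) + 1) = 10 * m := by
      exact_mod_cast congrArg (Nat.cast : ℕ → ℤ_[p]) hk'.symm
    rw [e1, e2, hkc'] at h2
    rw [hkc] at h1
    rw [← hk] at h1 h2
    rw [hk', h2, h1]
    refine ⟨-(om p x ^ (4 * m) * ((1 - 4 * m) * c1 * d ^ 2 + 4 * m * c2 * d ^ 2 +
      4 * m * om p (1 - x) ^ k * d)), ?_⟩
    linear_combination (om p x ^ (4 * m) * 4 * m * om p (1 - x) ^ k * d * p) * hP
  choose c hc using hx
  refine ⟨∑ x, c x, ?_⟩
  unfold jacobiSum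
  simp_rw [hc]
  rw [sum_add_distrib, sum_add_distrib, ← mul_sum, ← mul_sum, ← mul_sum,
    sum_beta p _ _ (by omega), sum_beta p _ _ (by omega), hp1]
  have f2 := filter_two (2 * m) (by omega)
  have f5 := filter_five (2 * m) (by omega)
  rw [show 2 * (2 * m) = 4 * m by ring] at f2
  rw [show 2 * (2 * m) = 4 * m by ring, show 5 * (2 * m) = 10 * m by ring] at f5
  rw [f2, f5, sum_singleton, sum_pair (by omega)]
  have s1 : (10 * m).choose (4 * (2 * m)) = (10 * m).choose (2 * m) :=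
    Nat.choose_symm_of_eq_add (by ring)
  have s2 : (4 * m).choose (2 * m) = (2 * m).centralBinom := by
    rw [Nat.centralBinom_eq_two_mul_choose]; congr 1; ring
  have s3 : (-1 : ℤ_[p]) ^ (2 * m) = 1 := by rw [pow_mul]; simp
  have s4 : (-1 : ℤ_[p]) ^ (4 * (2 * m)) = 1 := by rw [pow_mul', s3, one_pow]
  rw [s1, s2, s3, s4]
  push_cast
  ring

lemma adjoin_form {R : Type} [CommRing R] (μ : R) (hμ : μ ^ 2 + μ + 1 = 0) (z : R)
    (hz : z ∈ Algebra.adjoin ℤ {μ}) : ∃ c d : ℤ, z = c + d * μ := by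
  induction hz using Algebra.adjoin_induction with
  | mem x hx => exact ⟨0, 1, by rw [Set.mem_singleton_iff.mp hx]; simp⟩
  | algebraMap r => exact ⟨r, 0, by simp⟩
  | add x y _ _ hx hy =>
    obtain ⟨c, d, rfl⟩ := hx
    obtain ⟨c', d', rfl⟩ := hy
    exact ⟨c + c', d + d', by push_cast; ring⟩
  | mul x y _ _ hx hy =>
    obtain ⟨c, d, rfl⟩ := hx
    obtain ⟨c', d', rfl⟩ := hy
    exact ⟨c * c' - d * d', c * d' + c' * d - d * d', by
      push_cast; linear_combination ((d : R) * d') * hμ⟩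

lemma indep {R : Type} [CommRing R] [CharZero R] (μ : R) (hμ : μ ^ 2 + μ + 1 = 0) (a b : ℤ)
    (h : (a : R) + b * μ = 0) : a = 0 ∧ b = 0 := by
  have h1 : ((a ^ 2 - a * b + b ^ 2 : ℤ) : R) = 0 := by
    push_cast
    linear_combination ((a : R) - b - b * μ) * h + (b : R) ^ 2 * hμ
  have h2 : a ^ 2 - a * b + b ^ 2 = 0 := by exact_mod_cast h1
  constructor <;> nlinarith [sq_nonneg (a - b), sq_nonneg a, sq_nonneg b]

lemma jacobi_struct (m : ℕ) (hm : p = 6 * m + 1) :
    ∃ (J' : ℤ_[p]) (L M : ℤ), 4 * (p : ℤ) = L ^ 2 + 27 * M ^ 2 ∧ L % 3 = 1 ∧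
      jacobiSum (om p ^ (4 * m)) (om p ^ (4 * m)) * J' = p ∧
      jacobiSum (om p ^ (4 * m)) (om p ^ (4 * m)) + J' = L := by
  have hm0 : 0 < m := by
    rcases Nat.eq_zero_or_pos m with h | h
    · exfalso; rw [h] at hm; exact hp.out.ne_one (by simpa using hm)
    · exact h
  have hp1 : p - 1 = 6 * m := by omega
  set χ := om p ^ (4 * m) with hχ
  have h3 : χ ^ 3 = 1 := by
    rw [hχ, ← pow_mul, show 4 * m * 3 = (p - 1) * 2 by omega, pow_mul, om_pow_card, one_pow]
  have hne : χ ≠ 1 := by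
    apply om_pow_ne_one
    rw [hp1]
    intro h
    have := Nat.le_of_dvd (by omega) h
    omega
  have hinv : χ⁻¹ = χ ^ 2 := by
    rw [inv_eq_iff_mul_eq_one, ← pow_succ', h3]
  have hne2 : χ * χ ≠ 1 := by
    intro h
    apply hne
    have : χ ^ 3 = χ * χ * χ := by rw [pow_succ, pow_two]
    rw [this, h, one_mul] at h3
    exact h3
  obtain ⟨g, hg⟩ := MulChar.ne_one_iff.mp hne
  set μ := χ g with hμdef
  have hμ3 : μ ^ 3 = 1 := by
    rw [hμdef, ← MulChar.pow_apply_coe, h3, MulChar.one_apply_coe]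
  have hμ : μ ^ 2 + μ + 1 = 0 := by
    have : (μ - 1) * (μ ^ 2 + μ + 1) = 0 := by linear_combination hμ3
    exact (mul_eq_zero.mp this).resolve_left (sub_ne_zero.mpr hg)
  have hprim : IsPrimitiveRoot μ 3 := by
    have : Fact (Nat.Prime 3) := ⟨Nat.prime_three⟩
    have := orderOf_eq_prime hμ3 hg
    rw [← this]
    exact IsPrimitiveRoot.orderOf μ
  have hmul : jacobiSum χ χ * jacobiSum χ⁻¹ χ⁻¹ = p := by
    have hinj : Function.Injective (PadicInt.Coe.ringHom (p := p)) := Subtype.val_injective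
    have := jacobiSum_mul_jacobiSum_inv (F := ZMod p) (F' := ℚ_[p])
      (χ := χ.ringHomComp PadicInt.Coe.ringHom) (φ := χ.ringHomComp PadicInt.Coe.ringHom)
      (by rw [ringChar.eq_zero, ZMod.ringChar_zmod_n]; exact hp.out.ne_zero.symm)
      ((MulChar.ringHomComp_ne_one_iff hinj).mpr hne)
      ((MulChar.ringHomComp_ne_one_iff hinj).mpr hne)
      (by rw [← MulChar.ringHomComp_mul]; exact (MulChar.ringHomComp_ne_one_iff hinj).mpr hne2)
    rw [MulChar.ringHomComp_inv, jacobiSum_ringHomComp, jacobiSum_ringHomComp, ← map_mul,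
      ZMod.card] at this
    apply hinj
    rw [this, map_natCast]
  have hval : ∀ x : ZMod p, ∃ a b : ℤ, χ x * χ (1 - x) = a + b * μ ∧
      χ⁻¹ x * χ⁻¹ (1 - x) = a + b * μ ^ 2 := by
    intro x
    rw [hinv, MulChar.pow_apply' χ (n := 2) (by omega), MulChar.pow_apply' χ (n := 2) (by omega),
      ← mul_pow, ← map_mul]
    rcases eq_or_ne (x * (1 - x)) 0 with h | h
    · exact ⟨0, 0, by rw [h, MulChar.map_zero]; simp, by rw [h, MulChar.map_zero]; simp⟩
    · obtain ⟨k, hk, e⟩ := MulChar.exists_apply_eq_pow h3 hprim h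
      rw [e]
      interval_cases k
      · exact ⟨1, 0, by simp, by simp⟩
      · exact ⟨0, 1, by simp, by simp⟩
      · exact ⟨-1, -1, by push_cast; linear_combination hμ, by
          push_cast; linear_combination hμ + μ * hμ3⟩
  choose a b hab using hval
  have e1 : jacobiSum χ χ = ((∑ x, a x : ℤ) : ℤ_[p]) + ((∑ x, b x : ℤ) : ℤ_[p]) * μ := by
    unfold jacobiSum
    push_cast
    rw [sum_mul, ← sum_add_distrib]
    exact sum_congr rfl fun x _ => (hab x).1
  have e2 : jacobiSum χ⁻¹ χ⁻¹ = ((∑ x, a x : ℤ) : ℤ_[p]) + ((∑ x, b x : ℤ) : ℤ_[p]) * μ ^ 2 := by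
    unfold jacobiSum
    push_cast
    rw [sum_mul, ← sum_add_distrib]
    exact sum_congr rfl fun x _ => (hab x).2
  generalize (∑ x, a x : ℤ) = A at e1 e2
  generalize (∑ x, b x : ℤ) = B at e1 e2
  obtain ⟨z, hz, e3⟩ := exists_jacobiSum_eq_neg_one_add (by norm_num : 2 < 3) h3 h3
    (by rw [ZMod.card, hp1]; exact ⟨2 * m, by ring⟩) hprim
  obtain ⟨c, d, rfl⟩ := adjoin_form μ hμ z hz
  obtain ⟨hA, hB⟩ := indep μ hμ (A - (3 * d - 1)) (B - 3 * (d - c)) (by
    push_cast
    linear_combination e3 - e1 + ((c : ℤ_[p]) + d * μ - 3 * d) * hμ)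
  have hN : A ^ 2 - A * B + B ^ 2 = p := by
    have : ((A ^ 2 - A * B + B ^ 2 : ℤ) : ℤ_[p]) = ((p : ℤ) : ℤ_[p]) := by
      push_cast
      rw [← hmul, e1, e2]
      linear_combination (-(A : ℤ_[p]) * B) * hμ - (B : ℤ_[p]) ^ 2 * hμ3
    exact_mod_cast this
  refine ⟨jacobiSum χ⁻¹ χ⁻¹, 2 * A - B, d - c, ?_, by omega, hmul, ?_⟩
  · have : B = 3 * (d - c) := by omega
    rw [← hN, this]; ring
  · rw [e1, e2]; push_cast; linear_combination (B : ℤ_[p]) * hμ

end jac

lemma rep_unique (p : ℕ) (hp : p.Prime) (L M L' M' : ℤ) (h : 4 * (p : ℤ) = L ^ 2 + 27 * M ^ 2)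
    (h' : 4 * (p : ℤ) = L' ^ 2 + 27 * M' ^ 2) : L = L' ∨ L = -L' := by
  have hp0 : (0 : ℤ) < p := by exact_mod_cast hp.pos
  have key : ∀ N : ℤ, 4 * (p : ℤ) = L ^ 2 + 27 * N ^ 2 → (p : ℤ) ∣ L * M' - L' * N →
      L * M' - L' * N = 0 := by
    intro N hN ⟨k, hk⟩
    have e : (L * L' + 27 * N * M') ^ 2 + 27 * (L * M' - L' * N) ^ 2 = 16 * (p : ℤ) ^ 2 := by
      linear_combination (-(L' ^ 2 + 27 * M' ^ 2)) * hN - 4 * (p : ℤ) * h'
    rw [hk] at e ⊢
    have : k = 0 := by
      by_contra hk0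
      have : 1 ≤ k ^ 2 := by
        have := sq_pos_of_ne_zero hk0
        omega
      nlinarith [sq_nonneg (L * L' + 27 * N * M'), mul_pos hp0 hp0]
    rw [this, mul_zero]
  have hprod : (L * M' - L' * M) * (L * M' - L' * (-M)) = p * (4 * (M' ^ 2 - M ^ 2)) := by
    linear_combination (-M' ^ 2) * h + M ^ 2 * h'
  have hz : (L * M' - L' * M) * (L * M' - L' * (-M)) = 0 := by
    rcases (Nat.prime_iff_prime_int.mp hp).dvd_or_dvd ⟨_, hprod⟩ with h1 | h1
    · rw [key M h h1, zero_mul]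
    · rw [key (-M) (by rw [h]; ring) h1, mul_zero]
  rw [hprod] at hz
  have : M' ^ 2 - M ^ 2 = 0 := by
    have := (mul_eq_zero.mp hz).resolve_left hp0.ne'
    linarith
  have : (L - L') * (L + L') = 0 := by linear_combination h' - h + 27 * this
  rcases mul_eq_zero.mp this with h1 | h1
  · left; linarith
  · right; linarith

lemma reflect' {R : Type} [CommRing R] (m : ℕ) (f g : ℕ → R)
    (h : ∀ i j : ℕ, i + j + 1 = m → f i = g j) : ∏ j ∈ range m, f j = ∏ j ∈ range m, g j := by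
  rw [← prod_range_reflect f m]
  refine prod_congr rfl fun j hj => h _ _ ?_
  have := mem_range.mp hj
  omega

lemma choose_congr {R : Type} [CommRing R] (m : ℕ) (P : R) (hP : P = 6 * m + 1) (h2 : P ^ 2 = 0) :
    ((2 * m).factorial : R) * (((10 * m).choose (2 * m) : R) * (P + 4 * m)) =
      ((2 * m).factorial : R) * (((2 * m).centralBinom : R) * (P + 2 * m)) := by
  have a1 := Nat.ascFactorial_eq_factorial_mul_choose (8 * m) (2 * m)
  have a2 := Nat.ascFactorial_eq_factorial_mul_choose (2 * m) (2 * m)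
  rw [Nat.ascFactorial_eq_prod_range] at a1 a2
  rw [show 8 * m + 2 * m = 10 * m by ring] at a1
  rw [← two_mul, ← Nat.centralBinom_eq_two_mul_choose] at a2
  have b1 := congrArg (Nat.cast : ℕ → R) a1
  have b2 := congrArg (Nat.cast : ℕ → R) a2
  push_cast at b1 b2
  rw [← mul_assoc, ← mul_assoc, ← b1, ← b2]
  have c1 : (∏ i ∈ range (2 * m), (8 * (m : R) + 1 + i)) * (P + 4 * m) =
      (∏ i ∈ range (2 * m), (P + (2 * (m : R) + 1 + i))) * (P + 2 * m) := by
    have t1 := prod_range_succ (fun i : ℕ => 8 * (m : R) + 1 + i) (2 * m)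
    have t2 := prod_range_succ' (fun i : ℕ => 8 * (m : R) + 1 + i) (2 * m)
    rw [t1] at t2
    push_cast at t2
    convert t2 using 2
    · rw [hP]; ring
    · exact prod_congr rfl fun i _ => by rw [hP]; ring
    · rw [hP]; ring
  rw [c1]
  congr 1
  rw [two_mul m, prod_range_add, prod_range_add]
  rw [reflect' m (fun i => P + (2 * (m : R) + 1 + ((m + i : ℕ) : R)))
      (fun i => 2 * P - (2 * (m : R) + 1 + i)) ?_,
    reflect' m (fun i => 2 * (m : R) + 1 + ((m + i : ℕ) : R))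
      (fun i => P - (2 * (m : R) + 1 + i)) ?_, ← prod_mul_distrib, ← prod_mul_distrib]
  · exact prod_congr rfl fun i _ => by linear_combination 2 * h2
  · intro i j hij
    have : (i : R) + j + 1 = m := by exact_mod_cast congrArg (Nat.cast : ℕ → R) hij
    push_cast
    linear_combination this - hP
  · intro i j hij
    have : (i : R) + j + 1 = m := by exact_mod_cast congrArg (Nat.cast : ℕ → R) hij
    push_cast
    linear_combination this - hP

theorem centralBinom_congr (p : ℕ) (hp : p.Prime) (m : ℕ) (hm : p = 6 * m + 1) (L M : ℤ)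
    (h : 4 * (p : ℤ) = L ^ 2 + 27 * M ^ 2) (hL : L % 3 = 2) :
    (p : ℤ) ^ 2 ∣ L * ((2 * m).centralBinom : ℤ) - (L ^ 2 - p) := by
  have : Fact p.Prime := ⟨hp⟩
  have hm0 : 0 < m := by
    rcases Nat.eq_zero_or_pos m with h | h
    · exfalso; rw [h] at hm; exact hp.ne_one (by simpa using hm)
    · exact h
  obtain ⟨c, hc⟩ := jacobi_congr p m hm
  obtain ⟨J', L', M', h', hL', e1, e2⟩ := jacobi_struct p m hm
  have hLL : L = -L' := by
    rcases rep_unique p hp L M L' M' h h' with h1 | h1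
    · omega
    · exact h1
  have hP : ((p : ℕ) : ZMod (p ^ 2)) = 6 * m + 1 := by
    exact_mod_cast congrArg (Nat.cast : ℕ → ZMod (p ^ 2)) hm
  have h2 : ((p : ℕ) : ZMod (p ^ 2)) ^ 2 = 0 := by
    rw [← Nat.cast_pow, ZMod.natCast_self]
  have unit_of : ∀ k : ℕ, k ∣ (4 * m).factorial → IsUnit (k : ZMod (p ^ 2)) := by
    intro k hk
    rw [ZMod.isUnit_iff_coprime]
    apply Nat.Coprime.pow_right
    rw [Nat.coprime_comm, hp.coprime_iff_not_dvd]
    intro hh
    have := (hp.dvd_factorial).mp (hh.trans hk)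
    omega
  have u1 : IsUnit (((2 * m).factorial : ℕ) : ZMod (p ^ 2)) :=
    unit_of _ (Nat.factorial_dvd_factorial (by omega))
  have u2 : IsUnit (((4 * m : ℕ)) : ZMod (p ^ 2)) :=
    unit_of _ (Nat.dvd_factorial (by omega) le_rfl)
  have u3 : IsUnit (((2 * m).centralBinom : ℕ) : ZMod (p ^ 2)) := by
    apply unit_of
    have := Nat.choose_mul_factorial_mul_factorial (show 2 * m ≤ 2 * (2 * m) by omega)
    rw [← Nat.centralBinom_eq_two_mul_choose, show 2 * (2 * m) = 4 * m by ring] at this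
    exact ⟨_, by rw [← this, mul_assoc]⟩
  have d1 := u1.mul_left_cancel (choose_congr m _ hP h2)
  have f1 := congrArg (PadicInt.toZModPow (p := p) 2) e1
  have f2 := congrArg (PadicInt.toZModPow (p := p) 2) e2
  have f3 := congrArg (PadicInt.toZModPow (p := p) 2) hc
  simp only [map_add, map_mul, map_sub, map_pow, map_natCast, map_intCast, map_ofNat, map_one]
    at f1 f2 f3
  generalize PadicInt.toZModPow 2 (jacobiSum (om p ^ (4 * m)) (om p ^ (4 * m))) = J at f1 f2 f3
  generalize PadicInt.toZModPow 2 J' = K at f1 f2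
  generalize PadicInt.toZModPow 2 c = c' at f3
  have hgoal : ((L * ((2 * m).centralBinom : ℤ) - (L ^ 2 - p) : ℤ) : ZMod (p ^ 2)) = 0 := by
    rw [hLL]
    push_cast
    push_cast at u2
    generalize (((2 * m).centralBinom : ℕ) : ZMod (p ^ 2)) = B at *
    generalize (((10 * m).choose (2 * m) : ℕ) : ZMod (p ^ 2)) = C at *
    generalize ((p : ℕ) : ZMod (p ^ 2)) = P at *
    generalize ((m : ℕ) : ZMod (p ^ 2)) = μ at *
    have g1 : 8 * μ * C = (4 * μ + P) * B := by
      apply (u2.mul u2).mul_left_cancel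
      have : (4 * μ - P) * (C * (P + 4 * μ)) = (4 * μ - P) * (B * (P + 2 * μ)) := by rw [d1]
      linear_combination 8 * μ * this + (8 * μ * C - 8 * μ * B) * h2
    have g2 : J = -B := by
      rw [f3, g1]
      linear_combination (B + c') * h2 - (1 + P) * B * hP
    have g3 : K ^ 2 = 0 := by
      apply (u3.mul u3).mul_left_cancel
      rw [g2] at f1
      linear_combination (-(B * K) + P) * f1 + h2
    rw [g2] at f1 f2
    rw [← f2, ← f1]
    linear_combination -g3
  have := (ZMod.intCast_zmod_eq_zero_iff_dvd _ _).mp hgoal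
  exact_mod_cast this

end Pool.Agent.Lib.MP_2293c7_nt
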